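import Pool.Agent.H247.CB.Stm

/-!
# Project CB: chain recurrence for iterates
-/

set_option autoImplicit false

open scoped Topology
open Filter Set Metric

universe u

namespace Pool.Agent.H105.CBIT

open Pool.Agent.H247.CB Pool.Agent.R774.OS Pool.Agent.R774.ClStmt

/-- iterates along small chains -/
lemma iter_chain {X : Type u} [MetricSpace X] [CompactSpace X] {G : X → X} (hG : Continuous G)
    (q : ℕ) : ∀ δ : ℝ, 0 < δ → ∃ ε : ℝ, 0 < ε ∧ ∀ Y : ℕ → X,
      (∀ j, dist (G (Y j)) (Y (j + 1)) < ε) → ∀ j, dist (G^[q] (Y j)) (Y (j + q)) < δ := by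
  induction q with
  | zero =>
    intro δ hδ
    refine ⟨1, one_pos, fun Y _ j => ?_⟩
    simpa using hδ
  | succ q ih =>
    intro δ hδ
    obtain ⟨δ1, hδ1, hu⟩ := unif hG (show (0 : ℝ) < δ / 2 by positivity)
    obtain ⟨ε, hε, h⟩ := ih δ1 hδ1
    refine ⟨min ε (δ / 2), lt_min hε (by positivity), fun Y hY j => ?_⟩
    rw [Function.iterate_succ_apply']
    have h1 := hu _ _ (h Y (fun j => (hY j).trans_le (min_le_left _ _)) j)
    have h2 := (hY (j + q)).trans_le (min_le_right _ _)
    have h3 := dist_triangle (G (G^[q] (Y j))) (G (Y (j + q))) (Y (j + q + 1))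
    have h4 : j + (q + 1) = j + q + 1 := by ring
    rw [h4]
    linarith

/-- chain recurrence for an iterate -/
theorem main : S_IT.{u} := by
  intro X _ _ G hG q hq K hK hKc hL hinv z hz W hW hd
  obtain ⟨δ, hδ, hδW⟩ := leb (W := W ∩ (K ×ˢ (CR G \ K))ᶜ)
    (hW.inter (hKc.prod hL).isOpen_compl) (fun x => ⟨hd x, fun hx => hx.2.2 hx.1⟩)
  obtain ⟨ε, hε, hch⟩ := iter_chain hG q δ hδ
  obtain ⟨m, x, hm, h0, h1, h2, h3⟩ := conley hG (hK hz) {p | dist p.1 p.2 < ε}
    (isOpen_lt continuous_dist continuous_const) (fun x => by simpa using hε)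
  have hY : ∀ j, dist (G (x (j % m))) (x ((j + 1) % m)) < ε := by
    intro j
    have hlt : j % m < m := Nat.mod_lt _ (by omega)
    have e : x ((j + 1) % m) = x (j % m + 1) := by
      rcases Nat.lt_or_ge (j % m + 1) m with h4 | h4
      · have : (j + 1) % m = j % m + 1 := by
          rw [Nat.add_mod, Nat.mod_eq_of_lt (a := 1) (by omega), Nat.mod_eq_of_lt h4]
        rw [this]
      · have h5 : j % m + 1 = m := by omega
        have : (j + 1) % m = 0 := by
          have h6 : j + 1 = m * (j / m + 1) := by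
            have := Nat.div_add_mod j m
            rw [Nat.mul_add, mul_one]
            omega
          rw [h6, Nat.mul_mod_right]
        rw [this, h5, h0, h1]
    rw [e]
    exact h3 _ hlt
  have hT : ∀ j, (G^[q] (x (q * j % m)), x (q * (j + 1) % m)) ∈ W ∩ (K ×ˢ (CR G \ K))ᶜ := by
    intro j
    have h4 := hch (fun j => x (j % m)) hY (q * j)
    have h5 : q * (j + 1) = q * j + q := by ring
    rw [h5]
    exact hδW _ _ h4
  have hCR : ∀ j, x (j % m) ∈ CR G := fun j => h2 _ (Nat.mod_lt _ (by omega)).le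
  have hKm : ∀ j, x (q * j % m) ∈ K := by
    intro j
    induction j with
    | zero =>
      rw [mul_zero, Nat.zero_mod, h0]
      exact hz
    | succ j ih =>
      by_contra hcon
      exact (hT j).2 ⟨hinv _ ih, hCR _, hcon⟩
  refine ⟨m, fun j => x (q * j % m), hm, ?_, ?_, fun j _ => hKm j, fun j _ => (hT j).1⟩
  · show x (q * 0 % m) = z
    rw [mul_zero, Nat.zero_mod, h0]
  · show x (q * m % m) = z
    rw [Nat.mul_mod_left, h0]

end Pool.Agent.H105.CBIT
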